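import Pool.Agent.Helper61.EM.Spn

/-!
BCH: base change of the commutant, of `Lef` and of the derived algebra (helper61 for helper21).
-/

set_option autoImplicit false

open Matrix MT

namespace EM

section

variable {K₀ K : Type} [Field K₀] [Field K] [Algebra K₀ K] {n : ℕ}

theorem h61_cmt (U : Submodule K₀ (Matrix (Fin n) (Fin n) K₀)) :
    Cmt (spn K U) = spn K (Cmt U) := by
  apply le_antisymm
  · intro X hX
    apply h61_mem_spn
    intro l A hA
    rw [← h61_map_mul_left, ← h61_map_mul_right, hX _ (mem_spn U hA)]
  · apply spn_le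
    intro X hX A hA
    unfold spn at hA
    induction hA using Submodule.span_induction with
    | mem x hx =>
      obtain ⟨B, hB, rfl⟩ := hx
      rw [← Matrix.map_mul, ← Matrix.map_mul, hX B hB]
    | zero => rw [zero_mul, mul_zero]
    | add x y _ _ hx hy => rw [add_mul, mul_add, hx, hy]
    | smul c x _ hx => rw [Matrix.smul_mul, Matrix.mul_smul, hx]

theorem h61_lef (ψ : Matrix (Fin n) (Fin n) K₀) (U : Submodule K₀ (Matrix (Fin n) (Fin n) K₀)) :
    Lef (ψ.map (algebraMap K₀ K)) (spn K U) = spn K (Lef ψ U) := by
  apply le_antisymm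
  · intro A hA
    apply h61_mem_spn
    intro l
    refine ⟨?_, ?_⟩
    · have h1 := congrArg (fun M : Matrix (Fin n) (Fin n) K => M.map l) hA.1
      have h2 : (A.transpose * ψ.map (algebraMap K₀ K) + ψ.map (algebraMap K₀ K) * A).map l =
          (A.map l).transpose * ψ + ψ * A.map l := by
        rw [Matrix.map_add _ (fun a b => map_add l a b), h61_map_mul_left, h61_map_mul_right,
          Matrix.transpose_map]
      have h3 : (0 : Matrix (Fin n) (Fin n) K).map l = 0 := by
        ext i j
        simp
      have h4 : (A.transpose * ψ.map (algebraMap K₀ K) + ψ.map (algebraMap K₀ K) * A).map l =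
          (0 : Matrix (Fin n) (Fin n) K).map l := h1
      rw [h2, h3] at h4
      exact h4
    · intro X hX
      rw [← h61_map_mul_left, ← h61_map_mul_right]
      rw [hA.2 (X.map (algebraMap K₀ K)) (by rw [h61_cmt]; exact mem_spn _ hX)]
  · apply spn_le
    intro A hA
    refine ⟨?_, ?_⟩
    · rw [← Matrix.transpose_map, ← Matrix.map_mul, ← Matrix.map_mul,
        ← Matrix.map_add _ (fun a b => map_add (algebraMap K₀ K) a b), hA.1]
      ext i j
      simp
    · intro X hX
      rw [h61_cmt] at hX
      unfold spn at hX
      induction hX using Submodule.span_induction with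
      | mem x hx =>
        obtain ⟨B, hB, rfl⟩ := hx
        rw [← Matrix.map_mul, ← Matrix.map_mul, hA.2 B hB]
      | zero => rw [zero_mul, mul_zero]
      | add x y _ _ hx hy => rw [add_mul, mul_add, hx, hy]
      | smul c x _ hx => rw [Matrix.smul_mul, Matrix.mul_smul, hx]

theorem h61_der (U : Submodule K₀ (Matrix (Fin n) (Fin n) K₀)) :
    HG.der (spn K U) = spn K (HG.der U) := by
  have hbr : ∀ A₀ ∈ U, ∀ B ∈ spn K U,
      A₀.map (algebraMap K₀ K) * B - B * A₀.map (algebraMap K₀ K) ∈ spn K (HG.der U) := by
    intro A₀ hA₀ B hB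
    unfold spn at hB
    induction hB using Submodule.span_induction with
    | mem x hx =>
      obtain ⟨B₀, hB₀, rfl⟩ := hx
      rw [map_br]
      exact mem_spn _ (Submodule.subset_span ⟨A₀, hA₀, B₀, hB₀, rfl⟩)
    | zero => simp
    | add x y _ _ hx hy =>
      rw [mul_add, add_mul, add_sub_add_comm]
      exact Submodule.add_mem _ hx hy
    | smul c x _ hx =>
      rw [Matrix.mul_smul, Matrix.smul_mul, ← smul_sub]
      exact Submodule.smul_mem _ _ hx
  apply le_antisymm
  · apply Submodule.span_le.mpr
    rintro _ ⟨A, hA, B, hB, rfl⟩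
    change A * B - B * A ∈ spn K (HG.der U)
    unfold spn at hA
    induction hA using Submodule.span_induction with
    | mem x hx =>
      obtain ⟨A₀, hA₀, rfl⟩ := hx
      exact hbr A₀ hA₀ B hB
    | zero => simp
    | add x y _ _ hx hy =>
      rw [mul_add, add_mul, add_sub_add_comm]
      exact Submodule.add_mem _ hx hy
    | smul c x _ hx =>
      rw [Matrix.mul_smul, Matrix.smul_mul, ← smul_sub]
      exact Submodule.smul_mem _ _ hx
  · apply spn_le
    intro A hA
    unfold HG.der at hA
    induction hA using Submodule.span_induction with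
    | mem x hx =>
      obtain ⟨B, hB, C, hC, rfl⟩ := hx
      rw [← map_br]
      exact Submodule.subset_span ⟨_, mem_spn U hB, _, mem_spn U hC, rfl⟩
    | zero =>
      have h3 : (0 : Matrix (Fin n) (Fin n) K₀).map (algebraMap K₀ K) = 0 := by
        ext i j
        simp
      rw [h3]
      exact Submodule.zero_mem _
    | add x y _ _ hx hy =>
      rw [Matrix.map_add _ (fun a b => map_add (algebraMap K₀ K) a b)]
      exact Submodule.add_mem _ hx hy
    | smul c x _ hx =>
      have h3 : (c • x).map (algebraMap K₀ K) =
          algebraMap K₀ K c • x.map (algebraMap K₀ K) := by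
        ext i j
        simp
      rw [h3]
      exact Submodule.smul_mem _ _ hx

end

theorem st_BCH : ST_BCH := by
  intro K₀ K _ _ _ n ψ U
  refine ⟨h61_cmt U, h61_lef ψ U, h61_der U, ?_⟩
  intro U' h A hA
  exact of_mem_spn U' (h (mem_spn U hA))

end EM
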