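import Pool.Agent.Helper61.EM.Spn

/-!
TRB: the associative algebra over an extension (helper61 for helper21).
-/

set_option autoImplicit false

open Matrix MT

namespace EM

theorem st_TRB : ST_TRB := by
  intro K₀ K _ _ _ n U hU
  set W : Submodule K₀ (Matrix (Fin n) (Fin n) K₀) :=
    Subalgebra.toSubmodule (Algebra.adjoin K₀ (U : Set (Matrix (Fin n) (Fin n) K₀))) with hW
  have hmul : ∀ x ∈ spn K W, ∀ y ∈ spn K W, x * y ∈ spn K W := by
    intro x hx y hy
    have h3 : ∀ A₀ ∈ W, ∀ B ∈ spn K W, A₀.map (algebraMap K₀ K) * B ∈ spn K W := by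
      intro A₀ hA₀ B hB
      apply h61_mem_spn
      intro l
      rw [h61_map_mul_left]
      exact Subalgebra.mul_mem _ hA₀ (h61_map_mem l W hB)
    unfold spn at hx
    induction hx using Submodule.span_induction with
    | mem z hz =>
      obtain ⟨A, hA, rfl⟩ := hz
      exact h3 A hA y hy
    | zero => rw [zero_mul]; exact Submodule.zero_mem _
    | add z z' _ _ hz hz' => rw [add_mul]; exact Submodule.add_mem _ hz hz'
    | smul c z _ hz => rw [Matrix.smul_mul]; exact Submodule.smul_mem _ _ hz
  -- the algebra over the extension is contained in the span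
  have h1 : ∀ x ∈ Algebra.adjoin K ((spn K U : Submodule K (Matrix (Fin n) (Fin n) K)) :
      Set (Matrix (Fin n) (Fin n) K)), x ∈ spn K W := by
    intro x hx
    induction hx using Algebra.adjoin_induction with
    | mem x hx =>
      exact h61_spn_mono (fun A hA => Algebra.subset_adjoin hA) hx
    | algebraMap r =>
      rw [Algebra.algebraMap_eq_smul_one]
      apply Submodule.smul_mem
      have h2 : (1 : Matrix (Fin n) (Fin n) K) =
          (1 : Matrix (Fin n) (Fin n) K₀).map (algebraMap K₀ K) := by
        rw [Matrix.map_one _ (map_zero _) (map_one _)]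
      rw [h2]
      exact mem_spn W (Subalgebra.one_mem _)
    | add x y _ _ hx hy => exact Submodule.add_mem _ hx hy
    | mul x y _ _ hx hy => exact hmul x hx y hy
  -- the algebra over the ground field is contained in the algebra over the extension
  have h2 : ∀ x ∈ Algebra.adjoin K₀ (U : Set (Matrix (Fin n) (Fin n) K₀)),
      x.map (algebraMap K₀ K) ∈ Algebra.adjoin K ((spn K U :
        Submodule K (Matrix (Fin n) (Fin n) K)) : Set (Matrix (Fin n) (Fin n) K)) := by
    intro x hx
    induction hx using Algebra.adjoin_induction with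
    | mem x hx => exact Algebra.subset_adjoin (mem_spn U hx)
    | algebraMap r =>
      have h3 : (algebraMap K₀ (Matrix (Fin n) (Fin n) K₀) r).map (algebraMap K₀ K) =
          algebraMap K (Matrix (Fin n) (Fin n) K) (algebraMap K₀ K r) := by
        rw [Algebra.algebraMap_eq_smul_one, Algebra.algebraMap_eq_smul_one]
        ext i j
        rw [Matrix.map_apply, Matrix.smul_apply, Matrix.smul_apply, smul_eq_mul, smul_eq_mul,
          map_mul, Matrix.one_apply, Matrix.one_apply]
        split_ifs <;> simp
      rw [h3]
      exact Subalgebra.algebraMap_mem _ _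
    | add x y _ _ hx hy =>
      rw [Matrix.map_add _ (fun a b => map_add (algebraMap K₀ K) a b)]
      exact Subalgebra.add_mem _ hx hy
    | mul x y _ _ hx hy =>
      rw [Matrix.map_mul]
      exact Subalgebra.mul_mem _ hx hy
  intro A hA hAB
  have hA' := h1 A hA
  -- all functionals of `A` vanish
  have h3 : ∀ l : K →ₗ[K₀] K₀, A.map l = 0 := by
    intro l
    apply hU _ (h61_map_mem l W hA')
    intro B hB
    have h4 := congrArg l (hAB _ (h2 B hB))
    rw [map_zero] at h4
    rw [← h4, ← h61_map_mul_right]
    unfold Matrix.trace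
    rw [map_sum]
    rfl
  ext i j
  rw [Matrix.zero_apply]
  rw [← Module.forall_dual_apply_eq_zero_iff K₀]
  intro l
  have h4 := congrFun (congrFun (h3 l) i) j
  exact h4

end EM
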