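import Pool.Agent.Helper21.EM.Stmts

/-!
The span over an extension, in terms of linear functionals (helper61, for the rows TRB and BCH).
-/

set_option autoImplicit false

open Matrix MT

namespace EM

section

variable {K₀ K : Type} [Field K₀] [Field K] [Algebra K₀ K] {n : ℕ}

theorem h61_map_mul_left (l : K →ₗ[K₀] K₀) (A : Matrix (Fin n) (Fin n) K₀)
    (X : Matrix (Fin n) (Fin n) K) :
    (A.map (algebraMap K₀ K) * X).map l = A * X.map l := by
  ext i j
  rw [Matrix.map_apply, Matrix.mul_apply, Matrix.mul_apply, map_sum]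
  refine Finset.sum_congr rfl fun k _ => ?_
  rw [Matrix.map_apply, Matrix.map_apply, ← Algebra.smul_def, map_smul, smul_eq_mul]

theorem h61_map_mul_right (l : K →ₗ[K₀] K₀) (A : Matrix (Fin n) (Fin n) K₀)
    (X : Matrix (Fin n) (Fin n) K) :
    (X * A.map (algebraMap K₀ K)).map l = X.map l * A := by
  ext i j
  rw [Matrix.map_apply, Matrix.mul_apply, Matrix.mul_apply, map_sum]
  refine Finset.sum_congr rfl fun k _ => ?_
  rw [Matrix.map_apply, Matrix.map_apply, mul_comm, ← Algebra.smul_def, map_smul, smul_eq_mul,
    mul_comm]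

theorem h61_map_mem (l : K →ₗ[K₀] K₀) (a : Submodule K₀ (Matrix (Fin n) (Fin n) K₀))
    {T : Matrix (Fin n) (Fin n) K} (hT : T ∈ spn K a) : T.map l ∈ a := by
  have key : ∀ T ∈ spn K a, ∀ c : K, (c • T).map l ∈ a := by
    intro T hT
    unfold spn at hT
    induction hT using Submodule.span_induction with
    | mem x hx =>
      obtain ⟨B, hB, rfl⟩ := hx
      intro c
      have h1 : (c • B.map (algebraMap K₀ K)).map l = l c • B := by
        ext i j
        rw [Matrix.map_apply, Matrix.smul_apply, Matrix.map_apply, Matrix.smul_apply,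
          smul_eq_mul, smul_eq_mul, mul_comm c, ← Algebra.smul_def, map_smul, smul_eq_mul, mul_comm]
      rw [h1]
      exact a.smul_mem _ hB
    | zero =>
      intro c
      have h1 : (c • (0 : Matrix (Fin n) (Fin n) K)).map l = 0 := by
        ext i j
        simp
      rw [h1]
      exact a.zero_mem
    | add x y _ _ hx hy =>
      intro c
      have h1 : (c • (x + y)).map l = (c • x).map l + (c • y).map l := by
        ext i j
        simp [mul_add]
      rw [h1]
      exact a.add_mem (hx c) (hy c)
    | smul d x _ hx =>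
      intro c
      rw [smul_smul]
      exact hx (c * d)
  have h := key T hT 1
  rwa [one_smul] at h

theorem h61_mem_spn (a : Submodule K₀ (Matrix (Fin n) (Fin n) K₀))
    {T : Matrix (Fin n) (Fin n) K} (hT : ∀ l : K →ₗ[K₀] K₀, T.map l ∈ a) : T ∈ spn K a := by
  classical
  let b := Module.Basis.ofVectorSpace K₀ K
  let s : Finset (Module.Basis.ofVectorSpaceIndex K₀ K) :=
    Finset.univ.biUnion fun i : Fin n => Finset.univ.biUnion fun j : Fin n => (b.repr (T i j)).support
  have hTs : T = ∑ k ∈ s, b k • (T.map (b.coord k)).map (algebraMap K₀ K) := by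
    ext i j
    rw [Matrix.sum_apply]
    have h3 : T i j = ∑ k ∈ (b.repr (T i j)).support, (b.repr (T i j) k) • b k := by
      conv_lhs => rw [← b.linearCombination_repr (T i j)]
      rfl
    have h4 : ∀ k, (b k • (T.map (b.coord k)).map (algebraMap K₀ K)) i j =
        (b.repr (T i j) k) • b k := by
      intro k
      rw [Matrix.smul_apply, Matrix.map_apply, Matrix.map_apply, smul_eq_mul, mul_comm,
        ← Algebra.smul_def]
      rfl
    rw [Finset.sum_congr rfl fun k _ => h4 k]
    conv_lhs => rw [h3]
    apply Finset.sum_subset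
    · intro k hk
      rw [Finset.mem_biUnion]
      refine ⟨i, Finset.mem_univ _, ?_⟩
      rw [Finset.mem_biUnion]
      exact ⟨j, Finset.mem_univ _, hk⟩
    · intro k _ hk
      rw [Finsupp.notMem_support_iff.mp hk, zero_smul]
  rw [hTs]
  exact Submodule.sum_mem _ fun k _ => Submodule.smul_mem _ _ (mem_spn a (hT (b.coord k)))

theorem h61_spn_mono {a b : Submodule K₀ (Matrix (Fin n) (Fin n) K₀)} (h : a ≤ b) :
    spn K a ≤ spn K b :=
  spn_le a _ fun _ hA => mem_spn b (h hA)

end

end EM
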